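import Mathlib
import Pool.Agent.H373R2.T7.Fund

/-!
A sieve of dimension two: integers avoiding two classes modulo every odd prime up to `y` and one class modulo `2`.
-/

set_option autoImplicit false

namespace Pool.Agent.R498.BK

open Finset Filter
open Pool.Agent.H373R2.T7 (PerB nuB pz Vz)

/-- the excluded classes -/
def QQ (u v : ℕ → ℕ) (p n : ℕ) : Prop := n % p = u p % p ∨ n % p = v p % p

theorem QQ_per (u v : ℕ → ℕ) (h2 : u 2 = v 2) : PerB (QQ u v) 2 ∧ nuB (QQ u v) 2 ≤ 1 := by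
  classical
  refine ⟨⟨fun p n => ?_, fun p _ => ?_⟩, ?_⟩
  · unfold QQ
    rw [Nat.mod_mod]
  · unfold nuB
    calc ((range p).filter (fun r => QQ u v p r)).card ≤ ({u p % p, v p % p} : Finset ℕ).card := by
          apply card_le_card
          intro r hr
          rw [mem_filter, mem_range] at hr
          obtain ⟨h1, h2⟩ := hr
          unfold QQ at h2
          rw [Nat.mod_eq_of_lt h1] at h2
          simpa using h2
      _ ≤ 2 := card_le_two
  · unfold nuB
    calc ((range 2).filter (fun r => QQ u v 2 r)).card ≤ ({u 2 % 2} : Finset ℕ).card := by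
          apply card_le_card
          intro r hr
          rw [mem_filter, mem_range] at hr
          obtain ⟨h1, h3⟩ := hr
          unfold QQ at h3
          rw [Nat.mod_eq_of_lt h1, ← h2] at h3
          simpa using h3
      _ = 1 := card_singleton _

theorem fac_low (x : ℝ) (hx0 : 0 ≤ x) (hx : x ≤ 1 / 3) : (1 - x) ^ 3 ≤ 1 - 2 * x := by
  nlinarith [mul_nonneg hx0 hx0, mul_nonneg hx0 (sub_nonneg.2 hx)]

theorem prod_low (u v : ℕ → ℕ) (h2 : u 2 = v 2) (y : ℕ) :
    Vz y ^ 3 ≤ ∏ p ∈ pz y, (1 - (nuB (QQ u v) p : ℝ) / p) := by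
  obtain ⟨h3, h4⟩ := QQ_per u v h2
  unfold Vz
  rw [← prod_pow]
  apply Finset.prod_le_prod
  · intro p hp
    have hp2 : (2 : ℝ) ≤ p := by exact_mod_cast (Pool.Agent.H373R2.T7.mem_pz.1 hp).2.two_le
    have : (1 : ℝ) / p ≤ 1 := by
      rw [div_le_one (by linarith)]; linarith
    exact pow_nonneg (by linarith) 3
  · intro p hp
    have hpp := (Pool.Agent.H373R2.T7.mem_pz.1 hp).2
    rcases eq_or_lt_of_le hpp.two_le with h | h
    · subst h
      have : ((nuB (QQ u v) 2 : ℕ) : ℝ) ≤ 1 := by exact_mod_cast h4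
      have h5 : ((nuB (QQ u v) 2 : ℕ) : ℝ) / (2 : ℕ) ≤ 1 / 2 := by
        push_cast
        linarith
      have h6 : (1 - 1 / ((2 : ℕ) : ℝ)) ^ 3 = 1 / 8 := by norm_num
      rw [h6]
      linarith
    · have hp3 : (3 : ℝ) ≤ p := by exact_mod_cast h
      have h5 : ((nuB (QQ u v) p : ℕ) : ℝ) ≤ 2 := by exact_mod_cast h3.few p hpp
      have h6 : ((nuB (QQ u v) p : ℕ) : ℝ) / p ≤ 2 / p := by gcongr
      have h7 : (1 : ℝ) / p ≤ 1 / 3 := by
        apply one_div_le_one_div_of_le (by norm_num) hp3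
      have h8 := fac_low (1 / (p : ℝ)) (by positivity) h7
      have h9 : (2 : ℝ) * (1 / p) = 2 / p := by ring
      rw [h9] at h8
      linarith

/-- **Two classes for every odd prime up to `y`, one class for `2`.** -/
theorem sift : ∃ K y0 : ℕ, 1 ≤ K ∧ ∀ y : ℕ, y0 ≤ y → ∀ X : ℕ, y ^ K ≤ X → ∀ u v : ℕ → ℕ, u 2 = v 2 →
    ∃ n : ℕ, 1 ≤ n ∧ n ≤ X ∧ ∀ p : ℕ, p.Prime → p ≤ y → ¬ n % p = u p % p ∧ ¬ n % p = v p % p := by
  classical
  obtain ⟨K, x0, hK, hF⟩ := Pool.Agent.H373R2.T7.sys_fund 2 (by norm_num) (1 / 2) (by norm_num)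
  obtain ⟨C, N0, hV⟩ := Pool.Agent.H373R2.T7.Vz_low
  have hlim : ∀ᶠ y : ℝ in atTop, ‖Real.log y ^ (3 * C)‖ ≤ 1 / 3 * ‖y‖ :=
    (Real.isLittleO_pow_log_id_atTop (n := 3 * C)).bound (by norm_num)
  obtain ⟨Y1, hY1⟩ := eventually_atTop.1 hlim
  refine ⟨max K 2, max (max x0 N0) (max 3 ⌈Y1⌉₊), by omega, fun y hy X hX u v h2 => ?_⟩
  have hy1 : x0 ≤ y := le_trans (le_trans (le_max_left _ _) (le_max_left _ _)) hy
  have hy2 : N0 ≤ y := le_trans (le_trans (le_max_right _ _) (le_max_left _ _)) hy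
  have hy3 : 3 ≤ y := le_trans (le_trans (le_max_left _ _) (le_max_right _ _)) hy
  have hy4 : Y1 ≤ y := by
    have : ⌈Y1⌉₊ ≤ y := le_trans (le_trans (le_max_right _ _) (le_max_right _ _)) hy
    exact (Nat.le_ceil _).trans (by exact_mod_cast this)
  have hyK : y ^ K ≤ X := le_trans (Nat.pow_le_pow_right (by omega) (le_max_left _ _)) hX
  have hy2X : y ^ 2 ≤ X := le_trans (Nat.pow_le_pow_right (by omega) (le_max_right _ _)) hX
  obtain ⟨hper, hnu2⟩ := QQ_per u v h2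
  have hf := hF X y hy1 hyK (QQ u v) hper X
  have hpl := prod_low u v h2 y
  set P := ∏ p ∈ pz y, (1 - (nuB (QQ u v) p : ℝ) / p) with hP
  have hVy := hV y hy2
  have hlog : 0 < Real.log y := Real.log_pos (by exact_mod_cast (by omega : 1 < y))
  have hV3 : 1 / Real.log y ^ (3 * C) ≤ P := by
    refine le_trans ?_ hpl
    have : (1 / Real.log y ^ C) ^ 3 ≤ Vz y ^ 3 := by
      gcongr
    refine le_trans (le_of_eq ?_) this
    rw [div_pow, one_pow, ← pow_mul, mul_comm C 3]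
  have hlogy := hY1 y hy4
  rw [Real.norm_of_nonneg (by positivity), Real.norm_of_nonneg (by positivity)] at hlogy
  have hyP : 3 ≤ y * P := by
    have h5 : (0 : ℝ) < Real.log y ^ (3 * C) := by positivity
    have h6 : (3 : ℝ) ≤ y * (1 / Real.log y ^ (3 * C)) := by
      rw [mul_one_div, le_div_iff₀ h5]
      linarith
    refine h6.trans ?_
    gcongr
  have hsq : (y : ℝ) ≤ √(X : ℝ) := by
    apply Real.le_sqrt_of_sq_le
    exact_mod_cast hy2X
  have hXX : √(X : ℝ) * √(X : ℝ) = X := Real.mul_self_sqrt (by positivity)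
  have hPpos : 0 < P := lt_of_lt_of_le (by positivity) hV3
  have hcount : (0 : ℝ) < ((((Icc 1 X).filter (fun n : ℕ => ∀ p ∈ pz y, ¬ QQ u v p n)).card : ℕ) : ℝ) := by
    have h5 := (abs_le.1 hf).1
    have h6 : 2 * √(X : ℝ) < X * P := by
      have h7 : (0 : ℝ) < √(X : ℝ) := lt_of_lt_of_le (by positivity) hsq
      calc 2 * √(X : ℝ) < 3 * √(X : ℝ) := by linarith
        _ ≤ (y * P) * √(X : ℝ) := by gcongr
        _ ≤ (√(X : ℝ) * P) * √(X : ℝ) := by gcongr
        _ = (√(X : ℝ) * √(X : ℝ)) * P := by ring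
        _ = X * P := by rw [hXX]
    linarith
  have hc : 0 < ((Icc 1 X).filter (fun n : ℕ => ∀ p ∈ pz y, ¬ QQ u v p n)).card := by exact_mod_cast hcount
  obtain ⟨n, hn⟩ := card_pos.1 hc
  rw [mem_filter, mem_Icc] at hn
  refine ⟨n, hn.1.1, hn.1.2, fun p hp hpy => ?_⟩
  have := hn.2 p (Pool.Agent.H373R2.T7.mem_pz.2 ⟨hpy, hp⟩)
  unfold QQ at this
  push Not at this
  exact this

end Pool.Agent.R498.BK
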