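import Mathlib
import Pool.Agent.R498.BK.Sift

/-!
Local conditions and the sieve for the equation `a p + g (β q - γ r) = d`.
-/

set_option autoImplicit false

namespace Pool.Agent.R498.BK

theorem lin_class (l : ℕ) (hl : l.Prime) (A B : ℤ) (h : (l : ℤ) ∣ B → ¬ (l : ℤ) ∣ A) :
    ∃ u : ℕ, ∀ n : ℕ, ¬ n % l = u % l → ¬ (l : ℤ) ∣ A + B * n := by
  by_cases hex : ∃ n0 : ℕ, (l : ℤ) ∣ A + B * n0
  · obtain ⟨n0, hn0⟩ := hex
    refine ⟨n0, fun n hn hd => hn ?_⟩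
    have h1 : (l : ℤ) ∣ B * ((n : ℤ) - n0) := by
      have := dvd_sub hd hn0
      have h2 : A + B * n - (A + B * n0) = B * ((n : ℤ) - n0) := by ring
      rwa [h2] at this
    have hlp : Prime (l : ℤ) := Nat.prime_iff_prime_int.1 hl
    rcases hlp.dvd_or_dvd h1 with h2 | h2
    · exfalso
      apply h h2
      have h3 := dvd_sub hn0 (h2.mul_right (n0 : ℤ))
      simpa using h3
    · have h3 : (n0 : ℤ) ≡ n [ZMOD l] := Int.modEq_iff_dvd.2 h2
      exact ((Int.natCast_modEq_iff.1 h3).symm : n ≡ n0 [MOD l])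
  · exact ⟨0, fun n _ hd => hex ⟨n, hd⟩⟩

theorem dvd2 (x : ℤ) : (2 : ℤ) ∣ x ↔ (x : ZMod 2) = 0 := by
  have := (ZMod.intCast_zmod_eq_zero_iff_dvd x 2).symm
  exact_mod_cast this

theorem ne1 : ∀ x : ZMod 2, x ≠ 0 → x = 1 := by decide

theorem z0 : ∀ β γ D : ZMod 2, D + β - γ = 0 → ¬ (β = 0 ∧ γ = 0) → D + β * γ ≠ 0 := by decide

theorem z1 (a β γ g D d p : ZMod 2) (h : g * D = d - a * p) (hg : g ≠ 0) (hp : p ≠ 0)
    (h1 : a + g * β - g * γ - d = 0) (h2 : ¬ (β = 0 ∧ γ = 0)) : D + β * γ ≠ 0 := by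
  rw [ne1 g hg, ne1 p hp, one_mul, mul_one] at h
  rw [ne1 g hg, one_mul, one_mul] at h1
  refine z0 β γ D ?_ h2
  have h3 : ∀ x : ZMod 2, x + x = 0 := by decide
  rw [h]
  linear_combination h1 + h3 (d - a)

theorem z2 : ∀ β γ D q r t : ZMod 2, β * q - γ * r = D → β ≠ 0 → γ ≠ 0 → D + β * γ ≠ 0 → q + γ * t ≠ 0 →
    r + β * t ≠ 0 := by decide

theorem par1 (a β γ g D d p : ℤ) (h : g * D = d - a * p) (hg : ¬ (2 : ℤ) ∣ g) (hp : ¬ (2 : ℤ) ∣ p)
    (hpar : (2 : ℤ) ∣ a + g * β - g * γ - d) (h8 : ¬ ((2 : ℤ) ∣ β ∧ (2 : ℤ) ∣ γ)) :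
    ¬ (2 : ℤ) ∣ D + β * γ := by
  rw [dvd2] at *
  rw [dvd2] at h8
  have h9 := congrArg (Int.cast : ℤ → ZMod 2) h
  push_cast at *
  exact z1 _ _ _ _ _ _ _ h9 hg hp hpar h8

theorem par2 (β γ D q r t : ℤ) (h : β * q - γ * r = D) (hβ : ¬ (2 : ℤ) ∣ β) (hγ : ¬ (2 : ℤ) ∣ γ)
    (h1 : ¬ (2 : ℤ) ∣ D + β * γ) (h2 : ¬ (2 : ℤ) ∣ q + γ * t) : ¬ (2 : ℤ) ∣ r + β * t := by
  rw [dvd2] at *
  have h9 := congrArg (Int.cast : ℤ → ZMod 2) h
  push_cast at *
  exact z2 _ _ _ _ _ _ h9 hβ hγ h1 h2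

/-- first step: the classes for `s`. -/
theorem loc1 (a d β γ g p0 D0 : ℤ) (l : ℕ) (hl : l.Prime) (hD0 : g * D0 = d - a * p0)
    (hag : (l : ℤ) ∣ g → ¬ (l : ℤ) ∣ a) (hdg : (l : ℤ) ∣ g → ¬ (l : ℤ) ∣ d)
    (hβγ : (l : ℤ) ∣ β → ¬ (l : ℤ) ∣ γ)
    (had : (l : ℤ) ∣ β * γ → (l : ℤ) ∣ a → ¬ (l : ℤ) ∣ d)
    (hpar : (2 : ℤ) ∣ a + g * β - g * γ - d) :
    ∃ u v : ℕ, (l = 2 → u = v) ∧ ∀ n : ℕ, ¬ n % l = u % l → ¬ n % l = v % l →
      ¬ (l : ℤ) ∣ p0 + g * n ∧ ((l : ℤ) ∣ β * γ → ¬ (l : ℤ) ∣ D0 - a * n) ∧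
      (l = 2 → ¬ (2 : ℤ) ∣ D0 - a * n + β * γ) := by
  by_cases h2 : l = 2
  · subst h2
    by_cases hg : (2 : ℤ) ∣ g
    · have ha : ¬ (2 : ℤ) ∣ a := hag hg
      have hd : ¬ (2 : ℤ) ∣ d := hdg hg
      obtain ⟨u, hu⟩ := lin_class 2 hl (D0 + β * γ) (-a) (fun h => absurd ((dvd_neg).1 h) ha)
      refine ⟨u, u, fun _ => rfl, fun n hn _ => ?_⟩
      have h3 := hu n hn
      have h4 : D0 + β * γ + -a * n = D0 - a * n + β * γ := by ring
      rw [h4] at h3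
      have h5 : ¬ (2 : ℤ) ∣ p0 + g * n := by
        intro h
        have h6 : (2 : ℤ) ∣ p0 := by
          have := dvd_sub h (hg.mul_right (n : ℤ))
          simpa using this
        apply hd
        have h7 : d = g * D0 + a * p0 := by linarith
        rw [h7]
        exact dvd_add (hg.mul_right _) (h6.mul_left _)
      refine ⟨h5, fun h6 h7 => h3 ?_, fun _ => h3⟩
      exact dvd_add h7 h6
    · obtain ⟨u, hu⟩ := lin_class 2 hl p0 g (fun h => absurd h hg)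
      refine ⟨u, u, fun _ => rfl, fun n hn _ => ?_⟩
      have h5 := hu n hn
      have h6 : g * (D0 - a * n) = d - a * (p0 + g * n) := by
        rw [mul_sub, hD0]; ring
      have h3 : ¬ (2 : ℤ) ∣ D0 - a * n + β * γ := by
        push_cast at h5
        refine par1 a β γ g _ d _ h6 hg h5 hpar ?_
        rintro ⟨h, h'⟩
        exact hβγ (by push_cast; exact h) (by push_cast; exact h')
      refine ⟨h5, fun h6 h7 => h3 ?_, fun _ => h3⟩
      exact dvd_add h7 h6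
  · obtain ⟨u, hu⟩ := lin_class l hl p0 g (fun hg hp0 => hdg hg (by
      have h7 : d = g * D0 + a * p0 := by linarith
      rw [h7]
      exact dvd_add (hg.mul_right _) (hp0.mul_left _)))
    by_cases hb : (l : ℤ) ∣ β * γ
    · obtain ⟨v, hv⟩ := lin_class l hl D0 (-a) (fun ha hD => had hb ((dvd_neg).1 ha) (by
        have h7 : d = g * D0 + a * p0 := by linarith
        rw [h7]
        exact dvd_add (hD.mul_left _) (((dvd_neg).1 ha).mul_right _)))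
      refine ⟨u, v, fun h => absurd h h2, fun n h3 h4 => ⟨hu n h3, fun _ => ?_, fun h => absurd h h2⟩⟩
      have h5 := hv n h4
      have h6 : D0 + -a * n = D0 - a * n := by ring
      rwa [h6] at h5
    · exact ⟨u, u, fun h => absurd h h2, fun n h3 h4 => ⟨hu n h3, fun h => absurd h hb, fun h => absurd h h2⟩⟩

/-- second step: the classes for `t`. -/
theorem loc2 (β γ D q0 r0 : ℤ) (l : ℕ) (hl : l.Prime) (hD : β * q0 - γ * r0 = D)
    (hβγ : (l : ℤ) ∣ β → ¬ (l : ℤ) ∣ γ)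
    (h1 : (l : ℤ) ∣ β * γ → ¬ (l : ℤ) ∣ D) (h2 : l = 2 → ¬ (2 : ℤ) ∣ D + β * γ) :
    ∃ u v : ℕ, (l = 2 → u = v) ∧ ∀ n : ℕ, ¬ n % l = u % l → ¬ n % l = v % l →
      ¬ (l : ℤ) ∣ q0 + γ * n ∧ ¬ (l : ℤ) ∣ r0 + β * n := by
  have hq : (l : ℤ) ∣ γ → ¬ (l : ℤ) ∣ q0 := fun h h' => h1 (h.mul_left _) (by
    rw [← hD]; exact dvd_sub (h'.mul_left _) (h.mul_right _))
  have hr : (l : ℤ) ∣ β → ¬ (l : ℤ) ∣ r0 := fun h h' => h1 (h.mul_right _) (by
    rw [← hD]; exact dvd_sub (h.mul_right _) (h'.mul_left _))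
  obtain ⟨u, hu⟩ := lin_class l hl q0 γ hq
  obtain ⟨v, hv⟩ := lin_class l hl r0 β hr
  by_cases hl2 : l = 2
  · subst hl2
    have h3 := h2 rfl
    push_cast at *
    by_cases hβ : (2 : ℤ) ∣ β
    · refine ⟨u, u, fun _ => rfl, fun n hn _ => ⟨hu n hn, fun h => ?_⟩⟩
      apply hr hβ
      have := dvd_sub h (hβ.mul_right (n : ℤ))
      simpa using this
    · by_cases hγ : (2 : ℤ) ∣ γ
      · refine ⟨v, v, fun _ => rfl, fun n hn _ => ⟨fun h => ?_, hv n hn⟩⟩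
        apply hq hγ
        have := dvd_sub h (hγ.mul_right (n : ℤ))
        simpa using this
      · refine ⟨u, u, fun _ => rfl, fun n hn _ => ⟨hu n hn, ?_⟩⟩
        exact par2 β γ D q0 r0 n hD hβ hγ h3 (hu n hn)
  · exact ⟨u, v, fun h => absurd h hl2, fun n h3 h4 => ⟨hu n h3, hv n h4⟩⟩

/-- a small solution in nonnegative integers of `β q - γ r = D`. -/
theorem base_sol (β γ D : ℤ) (hβ : 0 < β) (hγ : 0 < γ) (hc : IsCoprime β γ) :
    ∃ q0 r0 : ℤ, 0 ≤ q0 ∧ 0 ≤ r0 ∧ β * q0 - γ * r0 = D ∧ q0 ≤ |D| + γ ∧ r0 ≤ |D| + β := by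
  obtain ⟨x, y, hxy⟩ := hc
  rcases le_total 0 D with hD | hD
  · set r0 := (-D * y) % β with hr0
    have h1 : 0 ≤ r0 := Int.emod_nonneg _ hβ.ne'
    have h2 : r0 < β := Int.emod_lt_of_pos _ hβ
    have h3 : β ∣ D + γ * r0 := by
      have h4 : β ∣ -D * y - r0 := Int.dvd_self_sub_of_emod_eq rfl
      have h5 : D + γ * r0 = β * (x * D) - γ * (-D * y - r0) := by
        have : D = D * (x * β + y * γ) := by rw [hxy, mul_one]
        linear_combination this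
      rw [h5]
      exact dvd_sub (dvd_mul_right _ _) (h4.mul_left _)
    obtain ⟨q0, hq0⟩ := h3
    have h6 : 0 ≤ γ * r0 := mul_nonneg hγ.le h1
    refine ⟨q0, r0, ?_, h1, by linarith, ?_, ?_⟩
    · by_contra h
      push Not at h
      nlinarith
    · rw [abs_of_nonneg hD]
      by_contra h
      push Not at h
      have h7 : γ * r0 ≤ γ * β := by nlinarith
      nlinarith
    · have := abs_nonneg D
      linarith
  · set q0 := (D * x) % γ with hq0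
    have h1 : 0 ≤ q0 := Int.emod_nonneg _ hγ.ne'
    have h2 : q0 < γ := Int.emod_lt_of_pos _ hγ
    have h3 : γ ∣ β * q0 - D := by
      have h4 : γ ∣ D * x - q0 := Int.dvd_self_sub_of_emod_eq rfl
      have h5 : β * q0 - D = γ * (-(y * D)) - β * (D * x - q0) := by
        have : D = D * (x * β + y * γ) := by rw [hxy, mul_one]
        linear_combination -this
      rw [h5]
      exact dvd_sub (dvd_mul_right _ _) (h4.mul_left _)
    obtain ⟨r0, hr0⟩ := h3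
    have h6 : 0 ≤ β * q0 := mul_nonneg hβ.le h1
    refine ⟨q0, r0, h1, ?_, by linarith, ?_, ?_⟩
    · by_contra h
      push Not at h
      nlinarith
    · have := abs_nonneg D
      linarith
    · rw [abs_of_nonpos hD]
      by_contra h
      push Not at h
      have h7 : β * q0 ≤ β * γ := by nlinarith
      nlinarith

end Pool.Agent.R498.BK
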