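import Mathlib
import Pool.Agent.R498.BK.Loc

/-!
Rough solutions of `a p + b q - c r = d`.
-/

set_option autoImplicit false

namespace Pool.Agent.R498.BK

/-- `n` is positive and all its prime factors exceed `y` -/
def Rough (y n : ℕ) : Prop := 0 < n ∧ ∀ p : ℕ, p.Prime → p ∣ n → y < p

/-- no prime divides all three numbers -/
def NG (x y z : ℤ) : Prop := ∀ l : ℕ, l.Prime → (l : ℤ) ∣ x → (l : ℤ) ∣ y → ¬ (l : ℤ) ∣ z

/-- the outcome of the sieve -/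
def Sif (y X : ℕ) : Prop := ∀ u v : ℕ → ℕ, u 2 = v 2 →
    ∃ n : ℕ, 1 ≤ n ∧ n ≤ X ∧ ∀ p : ℕ, p.Prime → p ≤ y → ¬ n % p = u p % p ∧ ¬ n % p = v p % p

theorem cop_of (a g : ℤ) (h : ∀ l : ℕ, l.Prime → (l : ℤ) ∣ a → ¬ (l : ℤ) ∣ g) : IsCoprime a g := by
  rw [Int.isCoprime_iff_gcd_eq_one]
  by_contra hc
  obtain ⟨l, hl, hd⟩ := Nat.exists_prime_and_dvd hc
  have h1 : l ∣ a.natAbs := hd.trans (Nat.gcd_dvd_left _ _)
  have h2 : l ∣ g.natAbs := hd.trans (Nat.gcd_dvd_right _ _)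
  exact h l hl (Int.natCast_dvd.2 h1) (Int.natCast_dvd.2 h2)

theorem toRough (y : ℕ) (P : ℤ) (hP : 0 < P) (h : ∀ l : ℕ, l.Prime → l ≤ y → ¬ (l : ℤ) ∣ P) :
    Rough y P.toNat := by
  refine ⟨by omega, fun l hl hd => ?_⟩
  by_contra hly
  push Not at hly
  apply h l hl hly
  have := Int.natCast_dvd_natCast.2 hd
  rwa [Int.toNat_of_nonneg hP.le] at this

/-- second step. -/
theorem step2 (y X : ℕ) (hS : Sif y X) (β γ D : ℤ) (hβ : 0 < β) (hγ : 0 < γ) (hc : IsCoprime β γ)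
    (h1 : ∀ l : ℕ, l.Prime → l ≤ y → (l : ℤ) ∣ β * γ → ¬ (l : ℤ) ∣ D)
    (h2 : 2 ≤ y → ¬ (2 : ℤ) ∣ D + β * γ) :
    ∃ q r : ℕ, Rough y q ∧ Rough y r ∧ β * q - γ * r = D ∧ (q : ℤ) ≤ |D| + γ * (X + 1) ∧
      (r : ℤ) ≤ |D| + β * (X + 1) := by
  obtain ⟨q0, r0, hq0, hr0, hD, hqb, hrb⟩ := base_sol β γ D hβ hγ hc
  have hloc : ∀ l : ℕ, ∃ u v : ℕ, (l = 2 → u = v) ∧ (l.Prime → l ≤ y → ∀ n : ℕ, ¬ n % l = u % l →
      ¬ n % l = v % l → ¬ (l : ℤ) ∣ q0 + γ * n ∧ ¬ (l : ℤ) ∣ r0 + β * n) := by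
    intro l
    by_cases hl : l.Prime ∧ l ≤ y
    · obtain ⟨u, v, huv, h⟩ := loc2 β γ D q0 r0 l hl.1 hD (fun h3 h4 => by
        have h5 := hc.isUnit_of_dvd' h3 h4
        rw [Int.isUnit_iff] at h5
        have := hl.1.two_le
        omega) (h1 l hl.1 hl.2) (fun h => h2 (h ▸ hl.2))
      exact ⟨u, v, huv, fun _ _ => h⟩
    · exact ⟨0, 0, fun _ => rfl, fun h3 h4 => absurd ⟨h3, h4⟩ hl⟩
  choose u v huv hl using hloc
  obtain ⟨t, ht1, htX, ht⟩ := hS u v (huv 2 rfl)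
  have htX' : (t : ℤ) ≤ X := by exact_mod_cast htX
  have ht1' : (1 : ℤ) ≤ t := by exact_mod_cast ht1
  have hq : 0 < q0 + γ * t := by nlinarith
  have hr : 0 < r0 + β * t := by nlinarith
  refine ⟨(q0 + γ * t).toNat, (r0 + β * t).toNat, toRough y _ hq (fun l hl1 hl2 => ?_),
    toRough y _ hr (fun l hl1 hl2 => ?_), ?_, ?_, ?_⟩
  · exact (hl l hl1 hl2 t (ht l hl1 hl2).1 (ht l hl1 hl2).2).1
  · exact (hl l hl1 hl2 t (ht l hl1 hl2).1 (ht l hl1 hl2).2).2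
  · rw [Int.toNat_of_nonneg hq.le, Int.toNat_of_nonneg hr.le]
    linear_combination hD
  · rw [Int.toNat_of_nonneg hq.le]
    nlinarith
  · rw [Int.toNat_of_nonneg hr.le]
    nlinarith

theorem core (y X : ℕ) (hS : Sif y X) (a b c d : ℤ) (hb : 0 < b) (hc : 0 < c) (h1 : NG a b c)
    (h2 : NG a b d) (h3 : NG a c d) (h4 : NG b c d) (hpar : (2 : ℤ) ∣ a + b - c - d) :
    ∃ p q r : ℕ, Rough y p ∧ Rough y q ∧ Rough y r ∧ a * p + b * q - c * r = d ∧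
      (p : ℤ) ≤ b * (X + 1) ∧ (q : ℤ) ≤ |d| + (|a| + c) * (X + 1) ∧ (r : ℤ) ≤ |d| + (|a| + b) * (X + 1) := by
  obtain ⟨g', β, γ, hg', hβγ1, hbβ, hcγ⟩ := Int.exists_gcd_one' (Int.gcd_pos_of_ne_zero_left c hb.ne')
  have hβγ : IsCoprime β γ := Int.isCoprime_iff_gcd_eq_one.2 hβγ1
  set g : ℤ := (g' : ℤ) with hgdef
  have hg : 0 < g := Int.natCast_pos.2 hg'
  have hβ : 0 < β := by
    by_contra h
    push Not at h
    nlinarith
  have hγ : 0 < γ := by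
    by_contra h
    push Not at h
    nlinarith
  have hlb : ∀ l : ℕ, (l : ℤ) ∣ g → (l : ℤ) ∣ b := fun l h => by rw [hbβ]; exact h.mul_left _
  have hlc : ∀ l : ℕ, (l : ℤ) ∣ g → (l : ℤ) ∣ c := fun l h => by rw [hcγ]; exact h.mul_left _
  have hag : IsCoprime a g := cop_of a g (fun l hl ha hg => h1 l hl ha (hlb l hg) (hlc l hg))
  obtain ⟨x, z, hxz⟩ := hag
  set p0 := (d * x) % g with hp0
  have hp1 : 0 ≤ p0 := Int.emod_nonneg _ hg.ne'
  have hp2 : p0 < g := Int.emod_lt_of_pos _ hg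
  have hdv : g ∣ d - a * p0 := by
    have h5 : g ∣ d * x - p0 := Int.dvd_self_sub_of_emod_eq rfl
    have h6 : d - a * p0 = a * (d * x - p0) + g * (d * z) := by
      linear_combination (-d) * hxz
    rw [h6]
    exact dvd_add (h5.mul_left _) (dvd_mul_right _ _)
  obtain ⟨D0, hD0⟩ := hdv
  have hloc : ∀ l : ℕ, ∃ u v : ℕ, (l = 2 → u = v) ∧ (l.Prime → ∀ n : ℕ, ¬ n % l = u % l →
      ¬ n % l = v % l → ¬ (l : ℤ) ∣ p0 + g * n ∧ ((l : ℤ) ∣ β * γ → ¬ (l : ℤ) ∣ D0 - a * n) ∧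
      (l = 2 → ¬ (2 : ℤ) ∣ D0 - a * n + β * γ)) := by
    intro l
    by_cases hl : l.Prime
    · obtain ⟨u, v, huv, h⟩ := loc1 a d β γ g p0 D0 l hl hD0.symm
        (fun hg ha => h1 l hl ha (hlb l hg) (hlc l hg))
        (fun hg hd => h4 l hl (hlb l hg) (hlc l hg) hd)
        (fun h3 h4 => by
          have h5 := hβγ.isUnit_of_dvd' h3 h4
          rw [Int.isUnit_iff] at h5
          have := hl.two_le
          omega)
        (fun h5 ha hd => by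
          rcases (Nat.prime_iff_prime_int.1 hl).dvd_or_dvd h5 with h6 | h6
          · exact h2 l hl ha (by rw [hbβ]; exact h6.mul_right _) hd
          · exact h3 l hl ha (by rw [hcγ]; exact h6.mul_right _) hd)
        (by
          have : a + g * β - g * γ - d = a + b - c - d := by rw [hbβ, hcγ]; ring
          rw [this]; exact hpar)
      exact ⟨u, v, huv, fun _ => h⟩
    · exact ⟨0, 0, fun _ => rfl, fun h3 => absurd h3 hl⟩
  choose u v huv hl using hloc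
  obtain ⟨s, hs1, hsX, hs⟩ := hS u v (huv 2 rfl)
  have hsX' : (s : ℤ) ≤ X := by exact_mod_cast hsX
  have hs1' : (1 : ℤ) ≤ s := by exact_mod_cast hs1
  set P : ℤ := p0 + g * s with hPdef
  set D : ℤ := D0 - a * s with hDdef
  have hP : 0 < P := by
    have : 0 < g * s := mul_pos hg (by linarith)
    linarith
  have hgD : g * D = d - a * P := by
    rw [hDdef, hPdef]
    linear_combination -hD0
  have hPle : P ≤ g * (X + 1) := by
    have : g * s ≤ g * X := mul_le_mul_of_nonneg_left hsX' hg.le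
    linarith
  have hDb : |D| ≤ |d| + |a| * (X + 1) := by
    have h5 : g * |D| ≤ |d| + |a| * P := by
      have h6 : |g * D| = g * |D| := by rw [abs_mul, abs_of_pos hg]
      rw [← h6, hgD]
      refine (abs_sub _ _).trans ?_
      rw [abs_mul, abs_of_pos hP]
    have h7 : |a| * P ≤ |a| * (g * (X + 1)) := mul_le_mul_of_nonneg_left hPle (abs_nonneg a)
    have h8 : |d| ≤ g * |d| := by
      have := abs_nonneg d
      nlinarith
    have h9 : g * |D| ≤ g * (|d| + |a| * (X + 1)) := by nlinarith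
    exact le_of_mul_le_mul_left h9 hg
  obtain ⟨q, r, hq, hr, hqr, hqb, hrb⟩ := step2 y X hS β γ D hβ hγ hβγ
    (fun l hl1 hl2 => (hl l hl1 s (hs l hl1 hl2).1 (hs l hl1 hl2).2).2.1)
    (fun h2y => (hl 2 Nat.prime_two s (hs 2 Nat.prime_two h2y).1 (hs 2 Nat.prime_two h2y).2).2.2 rfl)
  have hX : (0 : ℤ) ≤ X := by positivity
  have hβb : β ≤ b := by rw [hbβ]; nlinarith
  have hγc : γ ≤ c := by rw [hcγ]; nlinarith
  have hgb : g ≤ b := by rw [hbβ]; nlinarith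
  refine ⟨P.toNat, q, r, toRough y P hP (fun l hl1 hl2 => (hl l hl1 s (hs l hl1 hl2).1 (hs l hl1 hl2).2).1),
    hq, hr, ?_, ?_, ?_, ?_⟩
  · rw [Int.toNat_of_nonneg hP.le, hbβ, hcγ]
    linear_combination hgD + g * hqr
  · rw [Int.toNat_of_nonneg hP.le]
    nlinarith
  · nlinarith
  · nlinarith

end Pool.Agent.R498.BK
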