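import Mathlib
import Pool.Agent.R498.BK.Core

/-!
Almost prime solutions of `a p + b q + c r = d` up to `3 |d| + m ^ (1 + ε)`.
-/

set_option autoImplicit false

namespace Pool.Agent.R498.BK

theorem NG.r1 {x y z : ℤ} (h : NG x y z) : NG y x z := fun l hl a b c => h l hl b a c
theorem NG.r2 {x y z : ℤ} (h : NG x y z) : NG x z y := fun l hl a b c => h l hl a c b
theorem NG.n1 {x y z : ℤ} (h : NG x y z) : NG (-x) y z := fun l hl a b c => h l hl (dvd_neg.1 a) b c
theorem NG.n2 {x y z : ℤ} (h : NG x y z) : NG x (-y) z := fun l hl a b c => h l hl a (dvd_neg.1 b) c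
theorem NG.n3 {x y z : ℤ} (h : NG x y z) : NG x y (-z) := fun l hl a b c => h l hl a b (dvd_neg.1 c)

theorem all_signs (y X : ℕ) (hS : Sif y X) (a b c d : ℤ) (ha : a ≠ 0) (hb : b ≠ 0) (hc : c ≠ 0)
    (hs1 : ¬ (0 < a ∧ 0 < b ∧ 0 < c)) (hs2 : ¬ (a < 0 ∧ b < 0 ∧ c < 0)) (h1 : NG a b c)
    (h2 : NG a b d) (h3 : NG a c d) (h4 : NG b c d) (hpar : (2 : ℤ) ∣ a + b + c - d) (m : ℤ)
    (hma : |a| ≤ m) (hmb : |b| ≤ m) (hmc : |c| ≤ m) :
    ∃ p q r : ℕ, Rough y p ∧ Rough y q ∧ Rough y r ∧ a * p + b * q + c * r = d ∧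
      (p : ℤ) ≤ |d| + 2 * m * (X + 1) ∧ (q : ℤ) ≤ |d| + 2 * m * (X + 1) ∧ (r : ℤ) ≤ |d| + 2 * m * (X + 1) := by
  have hd := abs_nonneg d
  have hX : (0 : ℤ) ≤ X := by positivity
  have hm : 0 ≤ m := (abs_nonneg a).trans hma
  have hmX : 0 ≤ m * (X + 1) := by positivity
  -- the two kinds of bounds
  have hB1 : ∀ u : ℤ, 0 < u → u ≤ m → ∀ p : ℕ, (p : ℤ) ≤ u * (X + 1) → (p : ℤ) ≤ |d| + 2 * m * (X + 1) := by
    intro u hu0 hu p hp
    have : u * ((X : ℤ) + 1) ≤ m * (X + 1) := mul_le_mul_of_nonneg_right hu (by linarith)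
    linarith
  have hB2 : ∀ u v : ℤ, |u| ≤ m → v ≤ m → ∀ p : ℕ, (p : ℤ) ≤ |d| + (|u| + v) * (X + 1) →
      (p : ℤ) ≤ |d| + 2 * m * (X + 1) := by
    intro u v hu hv p hp
    have : (|u| + v) * ((X : ℤ) + 1) ≤ (2 * m) * (X + 1) := mul_le_mul_of_nonneg_right (by linarith) (by linarith)
    linarith
  have hab : ∀ u : ℤ, u < 0 → |u| ≤ m → -u ≤ m := fun u hu h => by rwa [abs_of_neg hu] at h
  have hap : ∀ u : ℤ, 0 < u → |u| ≤ m → u ≤ m := fun u hu h => by rwa [abs_of_pos hu] at h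
  rcases lt_or_gt_of_ne hb with hb' | hb'
  · rcases lt_or_gt_of_ne hc with hc' | hc'
    · have ha' : 0 < a := by
        rcases lt_or_gt_of_ne ha with h | h
        · exact absurd ⟨h, hb', hc'⟩ hs2
        · exact h
      obtain ⟨p, q, r, hp, hq, hr, he, b1, b2, b3⟩ := core y X hS c a (-b) d ha' (by linarith)
        (h1.r2.r1.r2.r2.n3) (h3.r1) (h4.r1.n2) (h2.n2) (by
          have : c + a - -b - d = a + b + c - d := by ring
          rw [this]; exact hpar)
      refine ⟨q, r, p, hq, hr, hp, by linear_combination he, hB2 c (-b) hmc (hab b hb' hmb) q b2,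
        hB2 c a hmc (hap a ha' hma) r b3, hB1 a ha' (hap a ha' hma) p b1⟩
    · obtain ⟨p, q, r, hp, hq, hr, he, b1, b2, b3⟩ := core y X hS a c (-b) d hc' (by linarith)
        (h1.r2.n3) h3 (h2.n2) (h4.r1.n2) (by
          have : a + c - -b - d = a + b + c - d := by ring
          rw [this]; exact hpar)
      exact ⟨p, r, q, hp, hr, hq, by linear_combination he, hB1 c hc' (hap c hc' hmc) p b1,
        hB2 a c hma (hap c hc' hmc) r b3, hB2 a (-b) hma (hab b hb' hmb) q b2⟩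
  · rcases lt_or_gt_of_ne hc with hc' | hc'
    · obtain ⟨p, q, r, hp, hq, hr, he, b1, b2, b3⟩ := core y X hS a b (-c) d hb' (by linarith)
        (h1.n3) h2 (h3.n2) (h4.n2) (by
          have : a + b - -c - d = a + b + c - d := by ring
          rw [this]; exact hpar)
      exact ⟨p, q, r, hp, hq, hr, by linear_combination he, hB1 b hb' (hap b hb' hmb) p b1,
        hB2 a (-c) hma (hab c hc' hmc) q b2, hB2 a b hma (hap b hb' hmb) r b3⟩
    · have ha' : a < 0 := by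
        rcases lt_or_gt_of_ne ha with h | h
        · exact h
        · exact absurd ⟨h, hb', hc'⟩ hs1
      obtain ⟨p, q, r, hp, hq, hr, he, b1, b2, b3⟩ := core y X hS c b (-a) d hb' (by linarith)
        (h1.r2.r1.r2.n3) (h4.r1) (h3.r1.n2) (h2.r1.n2) (by
          have : c + b - -a - d = a + b + c - d := by ring
          rw [this]; exact hpar)
      exact ⟨r, q, p, hr, hq, hp, by linear_combination he, hB2 c b hmc (hap b hb' hmb) r b3,
        hB2 c (-a) hmc (hab a ha' hma) q b2, hB1 b hb' (hap b hb' hmb) p b1⟩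

end Pool.Agent.R498.BK
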