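import Mathlib
import Pool.Agent.R498.BK.Main

/-!
Almost prime solutions of `a p + b q + c r = d`: the numerical part.
-/

set_option autoImplicit false

namespace Pool.Agent.R498.BK

/-- at most `R` prime factors, all of them at least `w` -/
def APr (R : ℕ) (w : ℝ) (n : ℕ) : Prop :=
  0 < n ∧ n.primeFactorsList.length ≤ R ∧ ∀ q : ℕ, q.Prime → q ∣ n → w ≤ q

theorem num1 (e : ℝ) (he : 0 < e) (he1 : e ≤ 1) (k : ℕ) (hk4 : 4 ≤ k) (hk : 1 / (k : ℝ) ≤ e / 4) :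
    ∃ Z1 : ℕ, ∀ D M : ℝ, 0 ≤ D → 3 ≤ M → (Z1 : ℝ) ≤ D + M →
      4 * M * (D + M) ^ (1 / (k : ℝ)) ≤ 2 * D + M ^ (1 + e) := by
  set T : ℝ := (8 : ℝ) ^ (2 / e) with hT
  have hT0 : 0 < T := by positivity
  refine ⟨512 + ⌈2 * T ^ 2⌉₊, fun D M hD hM hZ => ?_⟩
  have hceil : 2 * T ^ 2 ≤ (⌈2 * T ^ 2⌉₊ : ℝ) := Nat.le_ceil _
  push_cast at hZ
  have hc0 : (0 : ℝ) ≤ (⌈2 * T ^ 2⌉₊ : ℝ) := by positivity
  have hDM1 : 1 ≤ D + M := by linarith
  have hk0 : (0 : ℝ) < 1 / (k : ℝ) := by positivity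
  rcases le_or_gt D (M ^ 2) with h | h
  · have h1 : D + M ≤ 2 * M ^ 2 := by nlinarith
    have h2 : T ≤ M := by
      have h3 : T ^ 2 ≤ M ^ 2 := by nlinarith
      exact (pow_le_pow_iff_left₀ hT0.le (by linarith) (by norm_num)).1 h3
    have h4 : (D + M) ^ (1 / (k : ℝ)) ≤ 2 * M ^ (e / 2) := by
      calc (D + M) ^ (1 / (k : ℝ)) ≤ (D + M) ^ (e / 4) := Real.rpow_le_rpow_of_exponent_le hDM1 hk
        _ ≤ (2 * M ^ 2) ^ (e / 4) := Real.rpow_le_rpow (by linarith) h1 (by linarith)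
        _ = 2 ^ (e / 4) * (M ^ 2) ^ (e / 4) := Real.mul_rpow (by norm_num) (by positivity)
        _ = 2 ^ (e / 4) * M ^ (e / 2) := by
            rw [← Real.rpow_natCast, ← Real.rpow_mul (by linarith)]
            congr 2
            push_cast
            ring
        _ ≤ 2 * M ^ (e / 2) := by
            have h5 : (2 : ℝ) ^ (e / 4) ≤ 2 ^ (1 : ℝ) :=
              Real.rpow_le_rpow_of_exponent_le (by norm_num) (by linarith)
            rw [Real.rpow_one] at h5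
            gcongr
    have h6 : 8 ≤ M ^ (e / 2) := by
      calc (8 : ℝ) = T ^ (e / 2) := by
            rw [hT, ← Real.rpow_mul (by norm_num)]
            have : 2 / e * (e / 2) = 1 := by field_simp
            rw [this, Real.rpow_one]
        _ ≤ M ^ (e / 2) := Real.rpow_le_rpow hT0.le h2 (by linarith)
    have h7 : M ^ (1 + e) = M * (M ^ (e / 2) * M ^ (e / 2)) := by
      rw [← Real.rpow_add (by linarith), Real.rpow_add (by linarith), Real.rpow_one]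
      congr 2
      ring
    rw [h7]
    have h8 : 0 < M ^ (e / 2) := by positivity
    calc 4 * M * (D + M) ^ (1 / (k : ℝ)) ≤ 4 * M * (2 * M ^ (e / 2)) := by gcongr
      _ = M * (8 * M ^ (e / 2)) := by ring
      _ ≤ M * (M ^ (e / 2) * M ^ (e / 2)) := by gcongr
      _ ≤ 2 * D + M * (M ^ (e / 2) * M ^ (e / 2)) := by linarith
  · have h1 : D + M ≤ 2 * D := by nlinarith
    have hD256 : 256 ≤ D := by linarith
    set s : ℝ := D ^ ((1 : ℝ) / 4) with hs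
    have hs0 : 0 < s := by positivity
    have hs4 : s ^ 4 = D := by
      rw [hs, ← Real.rpow_natCast, ← Real.rpow_mul hD]
      norm_num
    have hs4' : 4 ≤ s := by
      by_contra hlt
      push Not at hlt
      have : s ^ 4 < 4 ^ 4 := by gcongr
      rw [hs4] at this
      linarith
    have hMs : M ≤ s ^ 2 := by
      have h3 : M ^ 2 ≤ (s ^ 2) ^ 2 := by
        have : (s ^ 2) ^ 2 = D := by rw [← hs4]; ring
        rw [this]; exact h.le
      exact (pow_le_pow_iff_left₀ (by linarith) (by positivity) (by norm_num)).1 h3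
    have h4 : (D + M) ^ (1 / (k : ℝ)) ≤ 2 * s := by
      have hk4' : 1 / (k : ℝ) ≤ 1 / 4 := one_div_le_one_div_of_le (by norm_num) (by exact_mod_cast hk4)
      calc (D + M) ^ (1 / (k : ℝ)) ≤ (D + M) ^ ((1 : ℝ) / 4) := Real.rpow_le_rpow_of_exponent_le hDM1 hk4'
        _ ≤ (2 * D) ^ ((1 : ℝ) / 4) := Real.rpow_le_rpow (by linarith) h1 (by norm_num)
        _ = 2 ^ ((1 : ℝ) / 4) * D ^ ((1 : ℝ) / 4) := Real.mul_rpow (by norm_num) hD
        _ ≤ 2 * s := by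
            have h5 : (2 : ℝ) ^ ((1 : ℝ) / 4) ≤ 2 ^ (1 : ℝ) :=
              Real.rpow_le_rpow_of_exponent_le (by norm_num) (by norm_num)
            rw [Real.rpow_one] at h5
            gcongr
    have hM0 : 0 ≤ M := by linarith
    calc 4 * M * (D + M) ^ (1 / (k : ℝ)) ≤ 4 * s ^ 2 * (2 * s) := by gcongr
      _ = 2 * (4 * s ^ 3) := by ring
      _ ≤ 2 * (s * s ^ 3) := by gcongr
      _ = 2 * D := by rw [← hs4]; ring
      _ ≤ 2 * D + M ^ (1 + e) := by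
          have : 0 ≤ M ^ (1 + e) := by positivity
          linarith

theorem omega_le (y n N Z : ℕ) (hy : 1 ≤ y) (hn : Rough y n) (hZ : Z ≤ (y + 1) ^ N) (hnZ : n ≤ Z ^ 3) :
    n.primeFactorsList.length ≤ 3 * N := by
  have h1 : (y + 1) ^ n.primeFactorsList.length ≤ n := by
    conv_rhs => rw [← Nat.prod_primeFactorsList hn.1.ne']
    apply List.pow_card_le_prod
    intro p hp
    exact hn.2 p (Nat.prime_of_mem_primeFactorsList hp) (Nat.dvd_of_mem_primeFactorsList hp)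
  have h2 : (y + 1) ^ n.primeFactorsList.length ≤ (y + 1) ^ (3 * N) := by
    calc (y + 1) ^ n.primeFactorsList.length ≤ n := h1
      _ ≤ Z ^ 3 := hnZ
      _ ≤ ((y + 1) ^ N) ^ 3 := Nat.pow_le_pow_left hZ 3
      _ = (y + 1) ^ (3 * N) := by rw [← pow_mul, mul_comm]
  exact (Nat.pow_le_pow_iff_right (by omega)).1 h2

/-- **Almost prime solutions up to `3 |d| + m ^ (1 + ε)`.** -/
theorem almost (ε : ℝ) (hε : 0 < ε) : ∃ (R Z0 : ℕ) (δ : ℝ), 0 < δ ∧ ∀ a b c d m : ℤ, a ≠ 0 → b ≠ 0 → c ≠ 0 →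
    ¬ (0 < a ∧ 0 < b ∧ 0 < c) → ¬ (a < 0 ∧ b < 0 ∧ c < 0) → NG a b c → NG a b d → NG a c d → NG b c d →
    (2 : ℤ) ∣ a + b + c - d → m = max 3 (max |a| (max |b| |c|)) → (Z0 : ℤ) ≤ |d| + m →
    ∃ p q r : ℕ, APr R (((|d| + m : ℤ) : ℝ) ^ δ) p ∧ APr R (((|d| + m : ℤ) : ℝ) ^ δ) q ∧
      APr R (((|d| + m : ℤ) : ℝ) ^ δ) r ∧ a * p + b * q + c * r = d ∧
      ((max p (max q r) : ℕ) : ℝ) ≤ 3 * |(d : ℝ)| + (m : ℝ) ^ (1 + ε) := by
  obtain ⟨K, y0, hK, hsift⟩ := sift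
  set e : ℝ := min ε 1 with he
  have he0 : 0 < e := lt_min hε one_pos
  have he1 : e ≤ 1 := min_le_right _ _
  have heε : e ≤ ε := min_le_left _ _
  set k : ℕ := max 4 ⌈4 / e⌉₊ with hk
  have hk4 : 4 ≤ k := le_max_left _ _
  have hke : 1 / (k : ℝ) ≤ e / 4 := by
    have h1 : 4 / e ≤ k := (Nat.le_ceil _).trans (by exact_mod_cast le_max_right _ _)
    rw [div_le_iff₀ (by positivity : (0 : ℝ) < k)]
    rw [div_le_iff₀ he0] at h1
    linarith
  obtain ⟨Z1, hZ1⟩ := num1 e he0 he1 k hk4 hke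
  set N : ℕ := K * k with hN
  have hN1 : 1 ≤ N := Nat.mul_pos hK (by omega)
  have hNR : (0 : ℝ) < N := by exact_mod_cast hN1
  refine ⟨3 * N, Z1 + y0 ^ N + 5, 1 / (N : ℝ), by positivity, ?_⟩
  intro a b c d m ha hb hc hs1 hs2 h1 h2 h3 h4 hpar hm hZ0
  have hm3 : 3 ≤ m := by rw [hm]; exact le_max_left _ _
  have hma : |a| ≤ m := by rw [hm]; exact le_max_of_le_right (le_max_left _ _)
  have hmb : |b| ≤ m := by rw [hm]; exact le_max_of_le_right (le_max_of_le_right (le_max_left _ _))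
  have hmc : |c| ≤ m := by rw [hm]; exact le_max_of_le_right (le_max_of_le_right (le_max_right _ _))
  have hd0 := abs_nonneg d
  obtain ⟨Z, hZ⟩ : ∃ Z : ℕ, (Z : ℤ) = |d| + m := ⟨(|d| + m).toNat, Int.toNat_of_nonneg (by linarith)⟩
  have hZR : (((|d| + m : ℤ)) : ℝ) = (Z : ℝ) := by rw [← hZ]; simp
  have hZge : Z1 + y0 ^ N + 5 ≤ Z := by
    have : ((Z1 + y0 ^ N + 5 : ℕ) : ℤ) ≤ Z := by rw [hZ]; exact hZ0
    exact_mod_cast this
  have hZ5 : (5 : ℝ) ≤ Z := by exact_mod_cast (by omega : 5 ≤ Z)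
  set y : ℕ := ⌊(Z : ℝ) ^ (1 / (N : ℝ))⌋₊ with hy
  set X : ℕ := ⌊(Z : ℝ) ^ (1 / (k : ℝ))⌋₊ with hX
  have hyy0 : y0 ≤ y := by
    apply Nat.le_floor
    have h5 : ((y0 : ℝ) ^ N) ^ (1 / (N : ℝ)) = y0 := by
      rw [one_div]
      exact Real.pow_rpow_inv_natCast (by positivity) (by omega)
    rw [← h5]
    apply Real.rpow_le_rpow (by positivity) _ (by positivity)
    exact_mod_cast (by omega : y0 ^ N ≤ Z)
  have hy1 : 1 ≤ y := by
    apply Nat.le_floor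
    push_cast
    exact Real.one_le_rpow (by linarith) (by positivity)
  have hyX : y ^ K ≤ X := by
    apply Nat.le_floor
    push_cast
    have h5 : (y : ℝ) ≤ (Z : ℝ) ^ (1 / (N : ℝ)) := Nat.floor_le (by positivity)
    calc (y : ℝ) ^ K ≤ ((Z : ℝ) ^ (1 / (N : ℝ))) ^ K := by gcongr
      _ = (Z : ℝ) ^ (1 / (k : ℝ)) := by
          rw [← Real.rpow_natCast, ← Real.rpow_mul (by positivity)]
          congr 1
          rw [hN]
          push_cast
          have : (K : ℝ) ≠ 0 := by positivity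
          field_simp
  have hS : Sif y X := fun u v huv => hsift y hyy0 X hyX u v huv
  obtain ⟨p, q, r, hp, hq, hr, heq, hp1, hq1, hr1⟩ := all_signs y X hS a b c d ha hb hc hs1 hs2 h1 h2 h3 h4
    hpar m hma hmb hmc
  have hlt : (Z : ℝ) ^ (1 / (N : ℝ)) < y + 1 := Nat.lt_floor_add_one _
  have hZy : Z ≤ (y + 1) ^ N := by
    have h5 : (Z : ℝ) = ((Z : ℝ) ^ (1 / (N : ℝ))) ^ N := by
      rw [one_div]
      exact (Real.rpow_inv_natCast_pow (by positivity) (by omega)).symm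
    have h6 : (Z : ℝ) ≤ ((y : ℝ) + 1) ^ N := by
      rw [h5]
      exact pow_le_pow_left₀ (by positivity) hlt.le _
    exact_mod_cast h6
  have hXZ : X ≤ Z := by
    have h5 : (X : ℝ) ≤ (Z : ℝ) ^ (1 / (k : ℝ)) := Nat.floor_le (by positivity)
    have h6 : (Z : ℝ) ^ (1 / (k : ℝ)) ≤ (Z : ℝ) ^ (1 : ℝ) := by
      apply Real.rpow_le_rpow_of_exponent_le (by linarith)
      rw [div_le_one (by positivity)]
      exact_mod_cast (by omega : 1 ≤ k)
    rw [Real.rpow_one] at h6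
    exact_mod_cast h5.trans h6
  have hX1 : 1 ≤ X := by
    apply Nat.le_floor
    push_cast
    exact Real.one_le_rpow (by linarith) (by positivity)
  have hcube : ∀ n : ℕ, (n : ℤ) ≤ |d| + 2 * m * (X + 1) → n ≤ Z ^ 3 := by
    intro n hn
    have h5 : (X : ℤ) ≤ Z := by exact_mod_cast hXZ
    have h6 : (5 : ℤ) ≤ Z := by exact_mod_cast (by omega : 5 ≤ Z)
    have h7 : m ≤ Z := by rw [hZ]; linarith
    have h8 : |d| ≤ Z := by rw [hZ]; linarith
    have h9 : 2 * m * ((X : ℤ) + 1) ≤ 2 * Z * (Z + 1) := by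
      apply mul_le_mul (by linarith) (by linarith) (by positivity) (by positivity)
    have h10 : (n : ℤ) ≤ (Z : ℤ) ^ 3 := by
      calc (n : ℤ) ≤ Z + 2 * Z * (Z + 1) := by linarith
        _ = Z * (3 + 2 * Z) := by ring
        _ ≤ Z * (Z * Z) := by
            apply mul_le_mul_of_nonneg_left _ (by positivity)
            nlinarith
        _ = (Z : ℤ) ^ 3 := by ring
    exact_mod_cast h10
  have hAP : ∀ n : ℕ, Rough y n → (n : ℤ) ≤ |d| + 2 * m * (X + 1) →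
      APr (3 * N) (((|d| + m : ℤ) : ℝ) ^ (1 / (N : ℝ))) n := by
    intro n hn hnb
    refine ⟨hn.1, omega_le y n N Z hy1 hn hZy (hcube n hnb), fun l hl hd => ?_⟩
    rw [hZR]
    have h5 : y + 1 ≤ l := hn.2 l hl hd
    have h6 : ((y : ℝ) + 1) ≤ l := by exact_mod_cast h5
    linarith
  refine ⟨p, q, r, hAP p hp hp1, hAP q hq hq1, hAP r hr hr1, heq, ?_⟩
  have hmax : ((max p (max q r) : ℕ) : ℤ) ≤ |d| + 2 * m * (X + 1) := by
    push_cast
    exact max_le hp1 (max_le hq1 hr1)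
  have hmaxR : ((max p (max q r) : ℕ) : ℝ) ≤ |(d : ℝ)| + 2 * m * (X + 1) := by
    have := (Int.cast_le (R := ℝ)).2 hmax
    push_cast at this ⊢
    exact this
  have hm3R : (3 : ℝ) ≤ m := by exact_mod_cast hm3
  have hXR : (X : ℝ) + 1 ≤ 2 * (Z : ℝ) ^ (1 / (k : ℝ)) := by
    have h5 : (X : ℝ) ≤ (Z : ℝ) ^ (1 / (k : ℝ)) := Nat.floor_le (by positivity)
    have h6 : 1 ≤ (Z : ℝ) ^ (1 / (k : ℝ)) := Real.one_le_rpow (by linarith) (by positivity)
    linarith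
  have hDM : |(d : ℝ)| + m = Z := by rw [← hZR]; push_cast; ring
  have hnum := hZ1 |(d : ℝ)| m (abs_nonneg _) hm3R (by
    rw [hDM]; exact_mod_cast (by omega : Z1 ≤ Z))
  rw [hDM] at hnum
  have h7 : 2 * (m : ℝ) * (X + 1) ≤ 4 * m * (Z : ℝ) ^ (1 / (k : ℝ)) := by
    calc 2 * (m : ℝ) * (X + 1) ≤ 2 * m * (2 * (Z : ℝ) ^ (1 / (k : ℝ))) := by gcongr
      _ = 4 * m * (Z : ℝ) ^ (1 / (k : ℝ)) := by ring
  have h8 : (m : ℝ) ^ (1 + e) ≤ (m : ℝ) ^ (1 + ε) :=
    Real.rpow_le_rpow_of_exponent_le (by linarith) (by linarith)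
  linarith

end Pool.Agent.R498.BK
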