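import Mathlib
import Pool.Agent.R498.BK.Fin
import Pool.Agent.R498.MP.PU9

/-!
`a p + b q + c r = d` with `p` in a string of primes and `q`, `r` almost primes, for coprime `b`, `c` of opposite signs.
-/

set_option autoImplicit false

namespace Pool.Agent.R498.BK

open Polynomial Filter
open Pool.Agent.R498.MP (APZ indexU)

/-- the product of the primes dividing `a` and not `d` -/
def JJ (a d : ℤ) : ℕ := ∏ l ∈ a.natAbs.primeFactors.filter (fun l : ℕ => ¬ (l : ℤ) ∣ d), l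

theorem JJ_dvd (a d : ℤ) : JJ a d ∣ a.natAbs :=
  (Finset.prod_dvd_prod_of_subset _ _ _ (Finset.filter_subset _ _)).trans (Nat.prod_primeFactors_dvd _)

theorem JJ_pos (a d : ℤ) (ha : a ≠ 0) : 1 ≤ JJ a d := by
  have h := Nat.pos_of_dvd_of_pos (JJ_dvd a d) (by omega)
  omega

theorem JJ_le (a d : ℤ) (ha : a ≠ 0) : (JJ a d : ℤ) ≤ |a| := by
  rw [Int.abs_eq_natAbs]
  exact_mod_cast Nat.le_of_dvd (by omega) (JJ_dvd a d)

/-- the constant term -/
def GG (a b c d : ℤ) (C : ℕ) : ℤ := d + (JJ a d : ℤ) * (1 + a * (2 * a * (C + |d|))) * (b * c)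

theorem GG_dvd (a b c d : ℤ) (C : ℕ) (ha : a ≠ 0) (h2 : NG a b d) (h3 : NG a c d) (l : ℕ) (hl : l.Prime)
    (hla : (l : ℤ) ∣ a) : ¬ (l : ℤ) ∣ GG a b c d C := by
  have hlp : Prime (l : ℤ) := Nat.prime_iff_prime_int.1 hl
  unfold GG
  intro h
  by_cases hd : (l : ℤ) ∣ d
  · have h4 : (l : ℤ) ∣ (JJ a d : ℤ) * (1 + a * (2 * a * (C + |d|))) * (b * c) := (dvd_add_right hd).1 h
    rcases hlp.dvd_or_dvd h4 with h5 | h5
    · rcases hlp.dvd_or_dvd h5 with h6 | h6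
      · have h7 : l ∣ JJ a d := by exact_mod_cast h6
        unfold JJ at h7
        rw [Prime.dvd_finsetProd_iff hl.prime] at h7
        obtain ⟨l', hl', hd'⟩ := h7
        rw [Finset.mem_filter] at hl'
        have h8 : l = l' := (Nat.prime_dvd_prime_iff_eq hl (Nat.prime_of_mem_primeFactors hl'.1)).1 hd'
        exact hl'.2 (h8 ▸ hd)
      · have h7 : (l : ℤ) ∣ 1 := (dvd_add_left (hla.mul_right _)).1 h6
        exact hlp.not_isUnit (isUnit_of_dvd_one h7)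
    · rcases hlp.dvd_or_dvd h5 with h6 | h6
      · exact h2 l hl hla h6 hd
      · exact h3 l hl hla h6 hd
  · have h7 : l ∣ JJ a d := by
      unfold JJ
      apply Finset.dvd_prod_of_mem
      rw [Finset.mem_filter, Nat.mem_primeFactors]
      exact ⟨⟨hl, Int.natCast_dvd.1 hla, by omega⟩, hd⟩
    have h8 : (l : ℤ) ∣ (JJ a d : ℤ) := by exact_mod_cast h7
    exact hd ((dvd_add_left ((h8.mul_right _).mul_right _)).1 h)

theorem z3 : ∀ a b c d J s : ZMod 2, a ≠ 0 → J ≠ 0 → a + b + c - d = 0 → ¬ (b = 0 ∧ c = 0) →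
    (d + J * (1 + a * (2 * s)) * (b * c)) - a ≠ 0 := by
  intro a b c d J s ha hJ h1 h2
  rw [ne1 a ha] at *
  rw [ne1 J hJ]
  have h3 : (2 : ZMod 2) = 0 := by decide
  rw [h3, zero_mul, mul_zero, add_zero, one_mul, one_mul]
  clear h3 hJ ha
  revert b c d
  decide

theorem GG_two (a b c d : ℤ) (C : ℕ) (hpar : (2 : ℤ) ∣ a + b + c - d)
    (hbc : ¬ ((2 : ℤ) ∣ b ∧ (2 : ℤ) ∣ c)) (h2a : ¬ (2 : ℤ) ∣ a) : ¬ (2 : ℤ) ∣ GG a b c d C - a := by
  have hJ : ¬ (2 : ℤ) ∣ (JJ a d : ℤ) := by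
    intro h
    have h1 : 2 ∣ JJ a d := by exact_mod_cast h
    apply h2a
    have := h1.trans (JJ_dvd a d)
    exact Int.natCast_dvd.2 this
  unfold GG
  rw [dvd2] at *
  rw [dvd2] at hbc
  push_cast at *
  have := z3 (a : ZMod 2) b c d (JJ a d : ℕ) (a * (C + (|d| : ℤ))) h2a hJ hpar hbc
  have e : ((d : ZMod 2) + (JJ a d : ℕ) * (1 + a * (2 * (a * (C + ((|d| : ℤ) : ZMod 2))))) * (b * c)) - a =
      d + (JJ a d : ℕ) * (1 + a * (2 * a * (C + ((|d| : ℤ) : ZMod 2)))) * (b * c) - a := by ring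
  rw [e] at this
  exact this

theorem GG_adm (a b c d : ℤ) (C : ℕ) (ha : a ≠ 0) (h2 : NG a b d) (h3 : NG a c d) (hbc : IsCoprime b c)
    (hpar : (2 : ℤ) ∣ a + b + c - d) (l : ℕ) (hl : l.Prime) :
    ∃ n : ℤ, ¬ (l : ℤ) ∣ n * (-a * n + GG a b c d C) := by
  have hlp : Prime (l : ℤ) := Nat.prime_iff_prime_int.1 hl
  by_cases hla : (l : ℤ) ∣ a
  · refine ⟨1, fun h => GG_dvd a b c d C ha h2 h3 l hl hla ?_⟩
    have h4 : (1 : ℤ) * (-a * 1 + GG a b c d C) = -a + GG a b c d C := by ring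
    rw [h4] at h
    exact (dvd_add_right ((dvd_neg).2 hla)).1 h
  · by_cases hl2 : l = 2
    · subst hl2
      refine ⟨1, fun h => GG_two a b c d C hpar ?_ (by exact_mod_cast hla) ?_⟩
      · rintro ⟨h4, h5⟩
        have := hbc.isUnit_of_dvd' h4 h5
        rw [Int.isUnit_iff] at this
        omega
      · have h4 : (1 : ℤ) * (-a * 1 + GG a b c d C) = GG a b c d C - a := by ring
        rw [h4] at h
        exact_mod_cast h
    · by_cases h1 : (l : ℤ) ∣ -a * 1 + GG a b c d C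
      · refine ⟨2, fun h => ?_⟩
        rcases hlp.dvd_or_dvd h with h4 | h4
        · have h5 : l ∣ 2 := by exact_mod_cast h4
          exact hl2 ((Nat.prime_dvd_prime_iff_eq hl Nat.prime_two).1 h5)
        · apply hla
          have h5 := dvd_sub h1 h4
          have h6 : -a * 1 + GG a b c d C - (-a * 2 + GG a b c d C) = a := by ring
          rwa [h6] at h5
      · exact ⟨1, fun h => h1 (by rwa [one_mul] at h)⟩

theorem GG_ne (a b c d : ℤ) (C : ℕ) (ha : a ≠ 0) (hb : b ≠ 0) (hc : c ≠ 0) (x : ℤ) (hx : |x| ≤ C) :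
    -a * x + GG a b c d C ≠ 0 := by
  intro h
  have h1 : GG a b c d C = a * x := by linarith
  have ha1 : 1 ≤ |a| := Int.one_le_abs ha
  have hJ : (1 : ℤ) ≤ JJ a d := by exact_mod_cast JJ_pos a d ha
  have hbc : 1 ≤ |b * c| := Int.one_le_abs (mul_ne_zero hb hc)
  have hd := abs_nonneg d
  have hC : (0 : ℤ) ≤ C := by positivity
  have haa : a * a = |a| * |a| := (abs_mul_abs_self a).symm
  set F : ℤ := 1 + a * (2 * a * (C + |d|)) with hF
  have hF1 : 1 + 2 * |a| * (C + |d|) ≤ F := by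
    have h2 : F = 1 + 2 * (|a| * |a|) * (C + |d|) := by rw [hF, ← haa]; ring
    rw [h2]
    have h3 : |a| * 1 ≤ |a| * |a| := mul_le_mul_of_nonneg_left ha1 (by linarith)
    have h4 : |a| * (C + |d|) ≤ (|a| * |a|) * (C + |d|) := mul_le_mul_of_nonneg_right (by linarith) (by linarith)
    linarith
  have hF0 : 0 < F := by
    have : 0 ≤ 2 * |a| * (C + |d|) := by positivity
    linarith
  have h5 : GG a b c d C - d = JJ a d * F * (b * c) := by
    unfold GG; ring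
  have h6 : F ≤ |GG a b c d C - d| := by
    rw [h5, abs_mul, abs_mul, abs_of_pos hF0, abs_of_pos (by linarith : (0 : ℤ) < JJ a d)]
    have h7 : F ≤ JJ a d * F := by nlinarith
    have h8 : JJ a d * F ≤ JJ a d * F * |b * c| := by nlinarith
    linarith
  have h7 : |GG a b c d C - d| ≤ |a| * C + |d| := by
    rw [h1]
    refine (abs_sub _ _).trans ?_
    rw [abs_mul]
    have : |a| * |x| ≤ |a| * C := mul_le_mul_of_nonneg_left hx (by linarith)
    linarith
  have h8 : |d| ≤ |a| * |d| := by nlinarith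
  have h9 : 0 ≤ |a| * (C : ℤ) := by positivity
  nlinarith

theorem GG_bd (a b c d : ℤ) (C : ℕ) (Z : ℤ) (ha : a ≠ 0) (hC : (C : ℤ) ≤ Z) (haZ : |a| ≤ Z) (hbZ : |b| ≤ Z)
    (hcZ : |c| ≤ Z) (hdZ : |d| ≤ Z) (hZ : 6 ≤ Z) : |GG a b c d C| ≤ Z ^ 7 := by
  have ha0 := abs_nonneg a
  have hb0 := abs_nonneg b
  have hc0 := abs_nonneg c
  have hd0 := abs_nonneg d
  have hC0 : (0 : ℤ) ≤ C := by positivity
  have hJ0 : (0 : ℤ) ≤ JJ a d := by positivity
  have hJ : (JJ a d : ℤ) ≤ Z := (JJ_le a d ha).trans haZ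
  unfold GG
  have h1 : |1 + a * (2 * a * (C + |d|))| ≤ 1 + Z * (2 * Z * (Z + Z)) := by
    refine (abs_add_le _ _).trans ?_
    rw [abs_one, abs_mul, abs_mul, abs_mul, abs_of_nonneg (by linarith : (0 : ℤ) ≤ C + |d|),
      abs_of_nonneg (by norm_num : (0 : ℤ) ≤ 2)]
    gcongr
  calc |d + (JJ a d : ℤ) * (1 + a * (2 * a * (C + |d|))) * (b * c)|
      ≤ |d| + |(JJ a d : ℤ) * (1 + a * (2 * a * (C + |d|))) * (b * c)| := abs_add_le _ _
    _ = |d| + JJ a d * |1 + a * (2 * a * (C + |d|))| * (|b| * |c|) := by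
        rw [abs_mul, abs_mul, abs_mul, abs_of_nonneg hJ0]
    _ ≤ Z + Z * (1 + Z * (2 * Z * (Z + Z))) * (Z * Z) := by gcongr
    _ = Z + Z ^ 3 + 4 * Z ^ 6 := by ring
    _ ≤ Z ^ 7 := by
        have h2 : Z ≤ Z ^ 6 := by
          calc Z = Z ^ 1 := (pow_one _).symm
            _ ≤ Z ^ 6 := pow_le_pow_right₀ (by linarith) (by norm_num)
        have h3 : Z ^ 3 ≤ Z ^ 6 := pow_le_pow_right₀ (by linarith) (by norm_num)
        have h4 : Z ^ 7 = Z * Z ^ 6 := by ring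
        have h5 : 0 ≤ Z ^ 6 := by positivity
        rw [h4]
        nlinarith

end Pool.Agent.R498.BK
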