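import Mathlib
import Pool.Agent.R498.BK.OneP
import Pool.Agent.R498.MP.Gold

/-!
`a p + b q + c r = d` with `p` in a string of primes and `q`, `r` almost primes: the theorem.
-/

set_option autoImplicit false

namespace Pool.Agent.R498.BK

open Polynomial Filter
open Pool.Agent.R498.MP (APZ indexU pr')

theorem step3 (y X : ℕ) (hS : Sif y X) (b c D m : ℤ) (hbc : b * c < 0) (hco : IsCoprime b c)
    (h1 : ∀ l : ℕ, l.Prime → l ≤ y → (l : ℤ) ∣ b * c → ¬ (l : ℤ) ∣ D) (h2 : ¬ (2 : ℤ) ∣ D + b * c)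
    (hmb : |b| ≤ m) (hmc : |c| ≤ m) :
    ∃ q r : ℕ, Rough y q ∧ Rough y r ∧ b * q + c * r = D ∧ (q : ℤ) ≤ |D| + m * (X + 1) ∧
      (r : ℤ) ≤ |D| + m * (X + 1) := by
  have hX : (0 : ℤ) ≤ (X : ℤ) + 1 := by positivity
  have h2' : 2 ≤ y → ¬ (2 : ℤ) ∣ D + b * -c := by
    intro _ h
    apply h2
    have h3 : D + b * c = D + b * -c + 2 * (b * c) := by ring
    rw [h3]
    exact dvd_add h (dvd_mul_right _ _)
  rcases lt_or_ge 0 b with hb | hb
  · have hc : 0 < -c := by nlinarith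
    obtain ⟨q, r, hq, hr, he, hq1, hr1⟩ := step2 y X hS b (-c) D hb hc hco.neg_right
      (fun l hl hly hd => h1 l hl hly (by
        have : b * c = -(b * -c) := by ring
        rw [this]; exact (dvd_neg).2 hd)) h2'
    have hcm : -c ≤ m := by rwa [abs_of_neg (by linarith)] at hmc
    have hbm : b ≤ m := by rwa [abs_of_pos hb] at hmb
    refine ⟨q, r, hq, hr, by linarith, ?_, ?_⟩
    · have := mul_le_mul_of_nonneg_right hcm hX
      linarith
    · have := mul_le_mul_of_nonneg_right hbm hX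
      linarith
  · have hb' : b < 0 := by
      rcases eq_or_lt_of_le hb with h | h
      · rw [h] at hbc; simp at hbc
      · exact h
    have hc : 0 < c := by nlinarith
    obtain ⟨q, r, hq, hr, he, hq1, hr1⟩ := step2 y X hS c (-b) D hc (by linarith) hco.symm.neg_right
      (fun l hl hly hd => h1 l hl hly (by
        have : b * c = -(c * -b) := by ring
        rw [this]; exact (dvd_neg).2 hd)) (fun h => by
        have : D + c * -b = D + b * -c := by ring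
        rw [this]; exact h2' h)
    have hbm : -b ≤ m := by rwa [abs_of_neg hb'] at hmb
    have hcm : c ≤ m := by rwa [abs_of_pos hc] at hmc
    refine ⟨r, q, hr, hq, by linarith, ?_, ?_⟩
    · have := mul_le_mul_of_nonneg_right hcm hX
      linarith
    · have := mul_le_mul_of_nonneg_right hbm hX
      linarith

theorem z4 (a b c d p : ZMod 2) (hp : p ≠ 0) (h1 : a + b + c - d = 0) (h2 : ¬ (b = 0 ∧ c = 0)) :
    (d - a * p) + b * c ≠ 0 := by
  rw [ne1 p hp, mul_one]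
  have h4 : d - a + b * c = b + c + b * c := by linear_combination -h1
  rw [h4]
  clear hp h1 h4
  revert b c
  decide

theorem par4 (a b c d : ℤ) (p : ℕ) (hp : p.Prime) (hp2 : 2 < p) (hpar : (2 : ℤ) ∣ a + b + c - d)
    (hbc : ¬ ((2 : ℤ) ∣ b ∧ (2 : ℤ) ∣ c)) : ¬ (2 : ℤ) ∣ (d - a * p) + b * c := by
  have h : ¬ (2 : ℤ) ∣ (p : ℤ) := by
    intro h
    have h1 : 2 ∣ p := by exact_mod_cast h
    have := (Nat.prime_dvd_prime_iff_eq Nat.prime_two hp).1 h1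
    omega
  rw [dvd2] at *
  rw [dvd2] at hbc
  push_cast at *
  exact z4 _ _ _ _ _ h hpar hbc

theorem sizes (a d m : ℤ) (p q s N : ℕ) (hm : 1 ≤ m) (hma : |a| ≤ m) (hN : 1 ≤ N) (hp : p ≤ 2 * N)
    (hq : (q : ℤ) ≤ |d - a * p| + m * ((N : ℤ) + 1)) (hs : (s : ℤ) ≤ |d - a * p| + m * ((N : ℤ) + 1)) :
    (p : ℤ) ≤ |d| + 4 * m * N ∧ (q : ℤ) ≤ |d| + 4 * m * N ∧ (s : ℤ) ≤ |d| + 4 * m * N := by
  have hpR : (p : ℤ) ≤ 2 * N := by exact_mod_cast hp
  have hN1 : (1 : ℤ) ≤ N := by exact_mod_cast hN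
  have hd := abs_nonneg d
  have hp0 : (0 : ℤ) ≤ (p : ℤ) := by positivity
  have hDb : |d - a * p| ≤ |d| + m * (2 * N) := by
    refine (abs_sub _ _).trans ?_
    rw [abs_mul]
    have h5 : |a| * |(p : ℤ)| ≤ m * (2 * N) := by
      rw [abs_of_nonneg hp0]
      exact mul_le_mul hma hpR hp0 (by linarith)
    linarith
  have h6 : m * 1 ≤ m * (N : ℤ) := mul_le_mul_of_nonneg_left hN1 (by linarith)
  have h7 : 1 * (N : ℤ) ≤ m * N := mul_le_mul_of_nonneg_right hm (by linarith)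
  refine ⟨by linarith, by linarith, by linarith⟩

theorem cube (d m : ℤ) (n N Z : ℕ) (h6 : 6 ≤ Z) (hNZ : N ≤ Z) (hm : 0 ≤ m) (hmZ : m ≤ Z) (hdZ : |d| ≤ Z)
    (hn : (n : ℤ) ≤ |d| + 4 * m * N) : n ≤ Z ^ 3 := by
  have h6' : (6 : ℤ) ≤ Z := by exact_mod_cast h6
  have h5 : (N : ℤ) ≤ Z := by exact_mod_cast hNZ
  have hN0 : (0 : ℤ) ≤ N := by positivity
  have h7 : m * (N : ℤ) ≤ Z * Z := mul_le_mul hmZ h5 hN0 (by linarith)
  have h8 : 0 ≤ ((Z : ℤ) - 6) * (Z + 2) := mul_nonneg (by linarith) (by linarith)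
  have h9 : 1 + 4 * (Z : ℤ) ≤ Z * Z := by linarith
  have h10 : (Z : ℤ) * (1 + 4 * Z) ≤ Z * (Z * Z) := mul_le_mul_of_nonneg_left h9 (by linarith)
  have h11 : (n : ℤ) ≤ (Z : ℤ) ^ 3 := by
    calc (n : ℤ) ≤ Z + 4 * (Z * Z) := by linarith
      _ = Z * (1 + 4 * Z) := by ring
      _ ≤ Z * (Z * Z) := h10
      _ = (Z : ℤ) ^ 3 := by ring
  exact_mod_cast h11

theorem toAPr (L y n Z : ℕ) (hy : 1 ≤ y) (hn : Rough y n) (hZ : Z ≤ (y + 1) ^ L) (hnZ : n ≤ Z ^ 3) (w : ℝ)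
    (hw : w ≤ y + 1) : APr (3 * L) w n := by
  refine ⟨hn.1, omega_le y n L Z hy hn hZ hnZ, fun l hl hd => ?_⟩
  have h5 : y + 1 ≤ l := hn.2 l hl hd
  have h6 : ((y : ℝ) + 1) ≤ l := by exact_mod_cast h5
  linarith

/-- **One prime in a string of primes and two almost primes.** -/
theorem onep (u r : ℕ) (hu : 1 ≤ u) (ε : ℝ) (hε : 0 < ε) : ∃ (C R : ℕ) (δ : ℝ), 0 < δ ∧ ∀ b₀ : ℕ, ∃ Z0 : ℕ,
    ∀ a b c d m : ℤ, a ≠ 0 → b * c < 0 → IsCoprime b c → NG a b d → NG a c d → (2 : ℤ) ∣ a + b + c - d →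
    m = max 3 (max |a| (max |b| |c|)) → (Z0 : ℤ) ≤ |d| + m →
    ∃ t : ℕ, 0 < t ∧ ((|d| + m : ℤ) : ℝ) ^ δ ≤ pr' (u * t + b₀) ∧
      (pr' (u * (t + r) + b₀) : ℝ) ≤ ((|d| + m : ℤ) : ℝ) ^ ε ∧
      pr' (u * (t + r) + b₀) ≤ pr' (u * t + b₀) + C ∧
      ∀ j ≤ r, ∃ q s : ℕ, APr R (((|d| + m : ℤ) : ℝ) ^ δ) q ∧ APr R (((|d| + m : ℤ) : ℝ) ^ δ) s ∧
        a * (pr' (u * (t + j) + b₀) : ℕ) + b * q + c * s = d ∧
        ((max (pr' (u * (t + j) + b₀)) (max q s) : ℕ) : ℝ) ≤ 3 * |(d : ℝ)| + (m : ℝ) ^ (1 + ε) := by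
  obtain ⟨K, y0, hK, hsift⟩ := sift
  obtain ⟨C, δ1, hδ1, hmain⟩ := indexU 1 1 squarefree_one u r hu
  set e : ℝ := min ε 1 with he
  have he0 : 0 < e := lt_min hε one_pos
  have he1 : e ≤ 1 := min_le_right _ _
  have heε : e ≤ ε := min_le_left _ _
  set k : ℕ := max 4 ⌈4 / e⌉₊ with hk
  have hk4 : 4 ≤ k := le_max_left _ _
  have hk0 : (0 : ℝ) < k := by exact_mod_cast (by omega : 0 < k)
  have hke : 1 / (k : ℝ) ≤ e / 4 := by
    have h1 : 4 / e ≤ k := (Nat.le_ceil _).trans (by exact_mod_cast le_max_right _ _)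
    rw [div_le_iff₀ hk0]
    rw [div_le_iff₀ he0] at h1
    linarith
  obtain ⟨Z1, hZ1⟩ := num1 e he0 he1 k hk4 hke
  obtain ⟨R1, hR1⟩ := hmain (16 * k)
  set L : ℕ := max (K * k) ⌈4 * k / δ1⌉₊ with hL
  have hLK : K * k ≤ L := le_max_left _ _
  have hL1 : 1 ≤ L := le_trans (Nat.mul_pos hK (by omega)) hLK
  have hL0 : (0 : ℝ) < L := by exact_mod_cast hL1
  have hLδ : 2 / (L : ℝ) ≤ δ1 / (2 * k) := by
    have h0 : ⌈4 * (k : ℝ) / δ1⌉₊ ≤ L := le_max_right _ _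
    have h1 : 4 * k / δ1 ≤ L := (Nat.le_ceil _).trans (Nat.cast_le.2 h0)
    rw [div_le_div_iff₀ hL0 (by positivity)]
    rw [div_le_iff₀ hδ1] at h1
    linarith
  refine ⟨C, 3 * L, 1 / (L : ℝ), by positivity, fun b₀ => ?_⟩
  obtain ⟨N0, hN0⟩ := eventually_atTop.1 (hR1 (u + b₀ - 1))
  refine ⟨Z1 + y0 ^ L + N0 ^ k + 4 ^ k + (C + 6) + ⌈(2 : ℝ) ^ (4 / e)⌉₊, ?_⟩
  intro a b c d m ha hbc hco h2 h3 hpar hm hZ0
  have hb0 : b ≠ 0 := by rintro rfl; simp at hbc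
  have hc0 : c ≠ 0 := by rintro rfl; simp at hbc
  have hm3 : 3 ≤ m := by rw [hm]; exact le_max_left _ _
  have hma : |a| ≤ m := by rw [hm]; exact le_max_of_le_right (le_max_left _ _)
  have hmb : |b| ≤ m := by rw [hm]; exact le_max_of_le_right (le_max_of_le_right (le_max_left _ _))
  have hmc : |c| ≤ m := by rw [hm]; exact le_max_of_le_right (le_max_of_le_right (le_max_right _ _))
  have hd0 := abs_nonneg d
  obtain ⟨Z, hZ⟩ : ∃ Z : ℕ, (Z : ℤ) = |d| + m := ⟨(|d| + m).toNat, Int.toNat_of_nonneg (by linarith)⟩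
  have hZR : (((|d| + m : ℤ)) : ℝ) = (Z : ℝ) := by rw [← hZ]; simp
  rw [hZR]
  have hZge : Z1 + y0 ^ L + N0 ^ k + 4 ^ k + (C + 6) + ⌈(2 : ℝ) ^ (4 / e)⌉₊ ≤ Z := by
    have : ((Z1 + y0 ^ L + N0 ^ k + 4 ^ k + (C + 6) + ⌈(2 : ℝ) ^ (4 / e)⌉₊ : ℕ) : ℤ) ≤ Z := by rw [hZ]; exact hZ0
    exact_mod_cast this
  have hpos4 : 0 < 4 ^ k := by positivity
  have hZ6 : 6 ≤ Z := by omega
  have hZ5 : (5 : ℝ) ≤ Z := by exact_mod_cast (by omega : 5 ≤ Z)
  have hZe : (2 : ℝ) ^ (4 / e) ≤ Z := (Nat.le_ceil _).trans (by exact_mod_cast (by omega : ⌈(2 : ℝ) ^ (4 / e)⌉₊ ≤ Z))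
  set y : ℕ := ⌊(Z : ℝ) ^ (1 / (L : ℝ))⌋₊ with hy
  set N : ℕ := ⌊(Z : ℝ) ^ (1 / (k : ℝ))⌋₊ with hN
  have hroot : ∀ (B n : ℕ), 1 ≤ n → B ^ n ≤ Z → (B : ℝ) ≤ (Z : ℝ) ^ (1 / (n : ℝ)) := by
    intro B n hn hB
    have h5 : ((B : ℝ) ^ n) ^ (1 / (n : ℝ)) = B := by
      rw [one_div]
      exact Real.pow_rpow_inv_natCast (by positivity) (by omega)
    rw [← h5]
    apply Real.rpow_le_rpow (by positivity) _ (by positivity)
    exact_mod_cast hB
  have hyy0 : y0 ≤ y := Nat.le_floor (hroot y0 L hL1 (by omega))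
  have hy1 : 1 ≤ y := by
    apply Nat.le_floor
    push_cast
    exact Real.one_le_rpow (by linarith) (by positivity)
  have hNN0 : N0 ≤ N := Nat.le_floor (hroot N0 k (by omega) (by omega))
  have h4k : (4 : ℝ) ≤ (Z : ℝ) ^ (1 / (k : ℝ)) := by
    have := hroot 4 k (by omega) (by omega)
    exact_mod_cast this
  have hN4 : 4 ≤ N := Nat.le_floor (by exact_mod_cast h4k)
  have hNle : (N : ℝ) ≤ (Z : ℝ) ^ (1 / (k : ℝ)) := Nat.floor_le (by positivity)
  have hyle : (y : ℝ) ≤ (Z : ℝ) ^ (1 / (L : ℝ)) := Nat.floor_le (by positivity)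
  have hyN : y ^ K ≤ N := by
    apply Nat.le_floor
    push_cast
    calc (y : ℝ) ^ K ≤ ((Z : ℝ) ^ (1 / (L : ℝ))) ^ K := by gcongr
      _ = (Z : ℝ) ^ ((K : ℝ) / L) := by
          rw [← Real.rpow_natCast, ← Real.rpow_mul (by positivity)]
          congr 1
          ring
      _ ≤ (Z : ℝ) ^ (1 / (k : ℝ)) := by
          apply Real.rpow_le_rpow_of_exponent_le (by linarith)
          rw [div_le_div_iff₀ hL0 hk0, one_mul]
          exact_mod_cast hLK
  have hS : Sif y N := fun v w huv => hsift y hyy0 N hyN v w huv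
  have hZyL : Z ≤ (y + 1) ^ L := by
    have hlt : (Z : ℝ) ^ (1 / (L : ℝ)) < y + 1 := Nat.lt_floor_add_one _
    have h5 : (Z : ℝ) = ((Z : ℝ) ^ (1 / (L : ℝ))) ^ L := by
      rw [one_div]
      exact (Real.rpow_inv_natCast_pow (by positivity) (by omega)).symm
    have h6 : (Z : ℝ) ≤ ((y : ℝ) + 1) ^ L := by
      rw [h5]
      exact pow_le_pow_left₀ (by positivity) hlt.le _
    exact_mod_cast h6
  have hZNk : Z ≤ (N + 1) ^ k := by
    have hlt : (Z : ℝ) ^ (1 / (k : ℝ)) < N + 1 := Nat.lt_floor_add_one _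
    have h5 : (Z : ℝ) = ((Z : ℝ) ^ (1 / (k : ℝ))) ^ k := by
      rw [one_div]
      exact (Real.rpow_inv_natCast_pow (by positivity) (by omega)).symm
    have h6 : (Z : ℝ) ≤ ((N : ℝ) + 1) ^ k := by
      rw [h5]
      exact pow_le_pow_left₀ (by positivity) hlt.le _
    exact_mod_cast h6
  have hZN : Z ≤ N ^ (2 * k) := by
    calc Z ≤ (N + 1) ^ k := hZNk
      _ ≤ (N ^ 2) ^ k := Nat.pow_le_pow_left (by nlinarith) k
      _ = N ^ (2 * k) := by rw [← pow_mul]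
  have hNZ : N ≤ Z := by
    have h6 : (Z : ℝ) ^ (1 / (k : ℝ)) ≤ (Z : ℝ) ^ (1 : ℝ) := by
      apply Real.rpow_le_rpow_of_exponent_le (by linarith)
      rw [div_le_one hk0]
      exact_mod_cast (by omega : 1 ≤ k)
    rw [Real.rpow_one] at h6
    exact_mod_cast hNle.trans h6
  -- the level of the almost primes
  have hNδ : (y : ℝ) < (N : ℝ) ^ δ1 := by
    have h5 : (Z : ℝ) ^ (1 / (2 * k : ℝ)) ≤ N := by
      have h6 : (Z : ℝ) ^ (1 / (2 * k : ℝ)) * (Z : ℝ) ^ (1 / (2 * k : ℝ)) = (Z : ℝ) ^ (1 / (k : ℝ)) := by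
        rw [← Real.rpow_add (by linarith)]
        congr 1
        field_simp
        norm_num
      have h7 : (2 : ℝ) ≤ (Z : ℝ) ^ (1 / (2 * k : ℝ)) := by
        by_contra hlt
        push Not at hlt
        have h8 : 0 < (Z : ℝ) ^ (1 / (2 * k : ℝ)) := by positivity
        nlinarith
      have h8 : (Z : ℝ) ^ (1 / (k : ℝ)) < N + 1 := Nat.lt_floor_add_one _
      nlinarith
    calc (y : ℝ) ≤ (Z : ℝ) ^ (1 / (L : ℝ)) := hyle
      _ < (Z : ℝ) ^ (2 / (L : ℝ)) := by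
          apply Real.rpow_lt_rpow_of_exponent_lt (by linarith)
          gcongr
          norm_num
      _ ≤ (Z : ℝ) ^ (δ1 / (2 * k)) := Real.rpow_le_rpow_of_exponent_le (by linarith) hLδ
      _ = ((Z : ℝ) ^ (1 / (2 * k : ℝ))) ^ δ1 := by
          rw [← Real.rpow_mul (by positivity)]
          congr 1
          ring
      _ ≤ (N : ℝ) ^ δ1 := Real.rpow_le_rpow (by positivity) h5 hδ1.le
  -- the polynomial
  have hZZ : (6 : ℤ) ≤ Z := by exact_mod_cast hZ6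
  have hmZ : m ≤ Z := by rw [hZ]; linarith
  have hdZ : |d| ≤ Z := by rw [hZ]; linarith
  have hGG : |GG a b c d C| ≤ (Z : ℤ) ^ 7 := GG_bd a b c d C Z ha (by exact_mod_cast (by omega : C ≤ Z))
    (hma.trans hmZ) (hmb.trans hmZ) (hmc.trans hmZ) hdZ hZZ
  have hev : ∀ x : ℤ, (Polynomial.C (-a) * X + Polynomial.C (GG a b c d C)).eval x = -a * x + GG a b c d C := by
    intro x; simp
  obtain ⟨k', g1, g2, g3, g4⟩ := hN0 N hNN0 (Polynomial.C (-a) * X + Polynomial.C (GG a b c d C))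
    natDegree_linear_le
    (fun l hl => by
      obtain ⟨n, hn⟩ := GG_adm a b c d C ha h2 h3 hco hpar l hl
      exact ⟨n, by rwa [hev]⟩)
    (fun x hx => by
      rw [hev]
      have h5 : |-a * x| ≤ Z * (2 * Z) := by
        rw [abs_mul, abs_neg]
        have h6 : |x| ≤ 2 * Z := hx.trans (by exact_mod_cast (by omega : 2 * N ≤ 2 * Z))
        exact mul_le_mul (hma.trans hmZ) h6 (abs_nonneg _) (by positivity)
      have h6 : |-a * x + GG a b c d C| ≤ (Z : ℤ) ^ 8 := by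
        refine (abs_add_le _ _).trans ?_
        have h7 : (Z : ℤ) * (2 * Z) ≤ (Z : ℤ) ^ 7 := by
          calc (Z : ℤ) * (2 * Z) ≤ Z * (Z * Z) := by
                apply mul_le_mul_of_nonneg_left _ (by positivity)
                nlinarith
            _ = (Z : ℤ) ^ 3 := by ring
            _ ≤ (Z : ℤ) ^ 7 := pow_le_pow_right₀ (by linarith) (by norm_num)
        have h8 : (Z : ℤ) ^ 8 = Z * (Z : ℤ) ^ 7 := by ring
        have h9 : 0 ≤ (Z : ℤ) ^ 7 := by positivity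
        nlinarith
      refine h6.trans ?_
      have h7 : (Z : ℤ) ≤ (N : ℤ) ^ (2 * k) := by exact_mod_cast hZN
      calc (Z : ℤ) ^ 8 ≤ ((N : ℤ) ^ (2 * k)) ^ 8 := pow_le_pow_left₀ (by positivity) h7 8
        _ = (N : ℤ) ^ (16 * k) := by rw [← pow_mul]; congr 1; ring)
    (fun x _ hxC => by
      rw [hev]
      exact GG_ne a b c d C ha hb0 hc0 x hxC)
    0 (fun l hl hl1 => absurd (Nat.dvd_one.1 hl1) hl.one_lt.ne')
  have e' : ∀ i, pr' (u * (k' + 1 + i) + b₀) = Nat.nth Nat.Prime (u * (k' + i) + (u + b₀ - 1)) := by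
    intro i
    unfold pr'
    congr 1
    have : u * (k' + 1 + i) = u * (k' + i) + u := by ring
    omega
  have e0 : pr' (u * (k' + 1) + b₀) = Nat.nth Nat.Prime (u * k' + (u + b₀ - 1)) := by
    have := e' 0
    simpa using this
  have hpN : N < pr' (u * (k' + 1) + b₀) := by rw [e0]; exact g1
  have hpN2 : pr' (u * (k' + 1 + r) + b₀) ≤ 2 * N := by rw [e' r]; exact g2
  have hyN' : y ≤ N := le_trans (Nat.le_self_pow (by omega) y) hyN
  refine ⟨k' + 1, by omega, ?_, ?_, ?_, fun j hj => ?_⟩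
  · have hlt : (Z : ℝ) ^ (1 / (L : ℝ)) < y + 1 := Nat.lt_floor_add_one _
    have h5 : y + 1 ≤ pr' (u * (k' + 1) + b₀) := by omega
    have h6 : ((y : ℝ) + 1) ≤ pr' (u * (k' + 1) + b₀) := by exact_mod_cast h5
    linarith
  · have h5 : (pr' (u * (k' + 1 + r) + b₀) : ℝ) ≤ 2 * N := by exact_mod_cast hpN2
    have h6 : (2 : ℝ) ≤ (Z : ℝ) ^ (e / 4) := by
      have h7 : ((2 : ℝ) ^ (4 / e)) ^ (e / 4) = 2 := by
        rw [← Real.rpow_mul (by norm_num)]
        have : 4 / e * (e / 4) = 1 := by field_simp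
        rw [this, Real.rpow_one]
      rw [← h7]
      exact Real.rpow_le_rpow (by positivity) hZe (by positivity)
    calc (pr' (u * (k' + 1 + r) + b₀) : ℝ) ≤ 2 * N := h5
      _ ≤ (Z : ℝ) ^ (e / 4) * (Z : ℝ) ^ (1 / (k : ℝ)) := by gcongr
      _ = (Z : ℝ) ^ (e / 4 + 1 / (k : ℝ)) := (Real.rpow_add (by linarith) _ _).symm
      _ ≤ (Z : ℝ) ^ ε := by
          apply Real.rpow_le_rpow_of_exponent_le (by linarith)
          linarith
  · rw [e' r, e0]; exact g3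
  · obtain ⟨-, g5⟩ := g4 j hj
    rw [hev] at g5
    rw [e' j]
    set p : ℕ := Nat.nth Nat.Prime (u * (k' + j) + (u + b₀ - 1)) with hp
    have hpp : p.Prime := Nat.prime_nth_prime _
    have hmono : StrictMono (Nat.nth Nat.Prime) := Nat.nth_strictMono Nat.infinite_setOfPred_prime
    have hpgt : N < p := lt_of_lt_of_le g1 (hmono.monotone (by
      have : u * k' ≤ u * (k' + j) := Nat.mul_le_mul_left _ (by omega)
      omega))
    have hple : p ≤ 2 * N := le_trans (hmono.monotone (by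
      have : u * (k' + j) ≤ u * (k' + r) := Nat.mul_le_mul_left _ (by omega)
      omega)) g2
    obtain ⟨q, s, hq, hs, heq, hq1, hs1⟩ := step3 y N hS b c (d - a * p) m hbc hco
      (fun l hl hly hbcl hD => by
        have h5 : (l : ℤ) ∣ -a * ((p : ℕ) : ℤ) + GG a b c d C := by
          have h6 : -a * ((p : ℕ) : ℤ) + GG a b c d C =
              (d - a * p) + (JJ a d : ℤ) * (1 + a * (2 * a * (C + |d|))) * (b * c) := by
            unfold GG; ring
          rw [h6]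
          exact dvd_add hD (hbcl.mul_left _)
        have h6 := g5.2.2 l hl h5
        have h7 : (l : ℝ) ≤ y := by exact_mod_cast hly
        linarith)
      (par4 a b c d p hpp (by omega) hpar (by
        rintro ⟨h5, h6⟩
        have := hco.isUnit_of_dvd' h5 h6
        rw [Int.isUnit_iff] at this
        omega)) hmb hmc
    obtain ⟨hp2, hq2, hs2⟩ := sizes a d m p q s N (by linarith) hma (by omega) hple hq1 hs1
    have hcube : ∀ n : ℕ, (n : ℤ) ≤ |d| + 4 * m * N → n ≤ Z ^ 3 := fun n hn =>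
      cube d m n N Z hZ6 hNZ (by linarith) hmZ hdZ hn
    have hw : (Z : ℝ) ^ (1 / (L : ℝ)) ≤ y + 1 := (Nat.lt_floor_add_one _).le
    refine ⟨q, s, toAPr L y q Z hy1 hq hZyL (hcube q hq2) _ hw, toAPr L y s Z hy1 hs hZyL (hcube s hs2) _ hw,
      by linear_combination heq, ?_⟩
    have hmax : ((max p (max q s) : ℕ) : ℤ) ≤ |d| + 4 * m * N := by
      push_cast
      exact max_le hp2 (max_le hq2 hs2)
    have hmaxR : ((max p (max q s) : ℕ) : ℝ) ≤ |(d : ℝ)| + 4 * m * N := by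
      have := (Int.cast_le (R := ℝ)).2 hmax
      push_cast at this ⊢
      exact this
    have hm3R : (3 : ℝ) ≤ m := by exact_mod_cast hm3
    have hDM : |(d : ℝ)| + m = Z := by rw [← hZR]; push_cast; ring
    have hnum := hZ1 |(d : ℝ)| m (abs_nonneg _) hm3R (by
      rw [hDM]; exact_mod_cast (by omega : Z1 ≤ Z))
    rw [hDM] at hnum
    have h7 : 4 * (m : ℝ) * N ≤ 4 * m * (Z : ℝ) ^ (1 / (k : ℝ)) := by gcongr
    have h8 : (m : ℝ) ^ (1 + e) ≤ (m : ℝ) ^ (1 + ε) :=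
      Real.rpow_le_rpow_of_exponent_le (by linarith) (by linarith)
    linarith

end Pool.Agent.R498.BK
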